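import Mathlib

/-!
# MP_f86430_an: `1 - (z₁ + z₂)/2` is cyclic in `𝒟_β(𝔻²)` for every `β ≤ 2`
-/

namespace Pool.Agent.Results.MP_f86430_an.Cyclic

open Filter Topology

/-- the weight `(|J| + 2) ^ β` -/
noncomputable def wt (β : ℝ) (J : Fin 2 →₀ ℕ) : ℝ := ((J 0 + J 1 + 2 : ℕ) : ℝ) ^ β

/-- `∑ a_J z^J ∈ 𝒟_β(𝔻²)`, i.e. `∑ |a_J|² (|J| + 2) ^ β < ∞`. -/
def MemD (β : ℝ) (a : MvPowerSeries (Fin 2) ℂ) : Prop :=
  Summable (fun J => ‖MvPowerSeries.coeff J a‖ ^ 2 * wt β J)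

/-- the squared norm of `𝒟_β(𝔻²)` -/
noncomputable def normSq (β : ℝ) (a : MvPowerSeries (Fin 2) ℂ) : ℝ :=
  ∑' J, ‖MvPowerSeries.coeff J a‖ ^ 2 * wt β J

/-- `f` is a cyclic vector of `𝒟_β(𝔻²)`: `f ∈ 𝒟_β` and `{p f : p polynomial}` is dense in
`𝒟_β`. -/
def IsCyclic (β : ℝ) (f : MvPowerSeries (Fin 2) ℂ) : Prop :=
  MemD β f ∧ ∀ g : MvPowerSeries (Fin 2) ℂ, MemD β g → ∀ ε : ℝ, 0 < ε →
    ∃ p : MvPolynomial (Fin 2) ℂ, MemD β ((p : MvPowerSeries (Fin 2) ℂ) * f - g) ∧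
      normSq β ((p : MvPowerSeries (Fin 2) ℂ) * f - g) < ε

/-! ### The combinatorial core -/

/-- sum of squares over an antidiagonal -/
noncomputable def A (b : ℕ → ℕ → ℂ) (N : ℕ) : ℝ :=
  ∑ p ∈ Finset.HasAntidiagonal.antidiagonal N, ‖b p.1 p.2‖ ^ 2

/-- the differences -/
def df (b : ℕ → ℕ → ℂ) (j k : ℕ) : ℂ := b (j + 1) k - b j (k + 1)

lemma A_nonneg (b : ℕ → ℕ → ℂ) (N : ℕ) : 0 ≤ A b N :=
  Finset.sum_nonneg fun _ _ => by positivity

lemma df_rec {b : ℕ → ℕ → ℂ} (h : ∀ j k, b j k = (b (j + 1) k + b j (k + 1)) / 2) :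
    ∀ j k, df b j k = (df b (j + 1) k + df b j (k + 1)) / 2 := by
  intro j k
  unfold df
  rw [h (j + 1) k, h j (k + 1)]
  ring

lemma A_step {b : ℕ → ℕ → ℂ} (h : ∀ j k, b j k = (b (j + 1) k + b j (k + 1)) / 2) (N : ℕ) :
    A b N + A (df b) N / 4 ≤ A b (N + 1) := by
  have key : ∀ x y : ℂ, ‖(x + y) / 2‖ ^ 2 + ‖x - y‖ ^ 2 / 4 = ‖x‖ ^ 2 / 2 + ‖y‖ ^ 2 / 2 := by
    intro x y
    simp only [norm_div, div_pow, ← Complex.normSq_eq_norm_sq, Complex.normSq_apply]
    simp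
    ring
  have e : A b N + A (df b) N / 4 =
      (∑ p ∈ Finset.HasAntidiagonal.antidiagonal N, ‖b (p.1 + 1) p.2‖ ^ 2) / 2 +
      (∑ p ∈ Finset.HasAntidiagonal.antidiagonal N, ‖b p.1 (p.2 + 1)‖ ^ 2) / 2 := by
    unfold A
    rw [Finset.sum_div, Finset.sum_div, Finset.sum_div, ← Finset.sum_add_distrib,
      ← Finset.sum_add_distrib]
    refine Finset.sum_congr rfl fun p _ => ?_
    rw [h p.1 p.2]
    exact key _ _
  have e1 : A b (N + 1) = ‖b 0 (N + 1)‖ ^ 2 +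
      ∑ p ∈ Finset.HasAntidiagonal.antidiagonal N, ‖b (p.1 + 1) p.2‖ ^ 2 := by
    unfold A
    rw [Finset.Nat.sum_antidiagonal_succ]
  have e2 : A b (N + 1) = ‖b (N + 1) 0‖ ^ 2 +
      ∑ p ∈ Finset.HasAntidiagonal.antidiagonal N, ‖b p.1 (p.2 + 1)‖ ^ 2 := by
    unfold A
    rw [Finset.Nat.sum_antidiagonal_succ']
  have h1 : 0 ≤ ‖b 0 (N + 1)‖ ^ 2 := by positivity
  have h2 : 0 ≤ ‖b (N + 1) 0‖ ^ 2 := by positivity
  rw [e]
  linarith

lemma A_mono {b : ℕ → ℕ → ℂ} (h : ∀ j k, b j k = (b (j + 1) k + b j (k + 1)) / 2) :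
    Monotone (A b) := by
  refine monotone_nat_of_le_succ fun N => ?_
  have := A_step h N
  have h2 := A_nonneg (df b) N
  linarith

lemma A_growth {b : ℕ → ℕ → ℂ} (h : ∀ j k, b j k = (b (j + 1) k + b j (k + 1)) / 2) (m : ℕ)
    (i : ℕ) : i * (A (df b) m / 4) ≤ A b (m + i) := by
  induction i with
  | zero => simpa using A_nonneg b m
  | succ i ih =>
    have h1 := A_step h (m + i)
    have h2 := A_mono (df_rec h) (Nat.le_add_right m i)
    push_cast
    rw [← add_assoc]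
    linarith

lemma nonsum {a : ℕ → ℝ} {κ : ℝ} (hκ : 0 < κ) (m : ℕ) (h : ∀ i : ℕ, i * κ ≤ a (m + i))
    (hs : Summable (fun N : ℕ => a N / ((N : ℝ) + 2) ^ 2)) : False := by
  have h1 : Summable (fun N : ℕ => κ / 2 * (1 / ((N : ℝ) + 2))) := by
    refine Summable.of_norm_bounded_eventually_nat hs ?_
    filter_upwards [eventually_ge_atTop (2 * m + 2)] with N hN
    have hN' : (2 * m + 2 : ℝ) ≤ N := by exact_mod_cast hN
    have h2 := h (N - m)
    rw [Nat.add_sub_cancel' (by omega : m ≤ N), Nat.cast_sub (by omega : m ≤ N)] at h2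
    have hpos : (0 : ℝ) < (N : ℝ) + 2 := by positivity
    rw [Real.norm_of_nonneg (by positivity), le_div_iff₀ (by positivity)]
    have h3 : κ / 2 * (1 / ((N : ℝ) + 2)) * ((N : ℝ) + 2) ^ 2 = κ * (((N : ℝ) + 2) / 2) := by
      field_simp
    rw [h3]
    have h4 : ((N : ℝ) + 2) / 2 ≤ N - m := by linarith
    nlinarith
  have h2 : Summable (fun N : ℕ => 1 / ((N : ℝ) + 2)) := by
    have := h1.mul_left (2 / κ)
    refine this.congr fun N => ?_
    field_simp
  have h3 : Summable (fun N : ℕ => 1 / (N : ℝ)) := by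
    rw [← summable_nat_add_iff 2]
    refine h2.congr fun N => ?_
    push_cast
    rfl
  exact Real.not_summable_one_div_natCast h3

lemma core {b : ℕ → ℕ → ℂ} (h : ∀ j k, b j k = (b (j + 1) k + b j (k + 1)) / 2)
    (hs : Summable (fun p : ℕ × ℕ => ‖b p.1 p.2‖ ^ 2 / ((p.1 + p.2 : ℝ) + 2) ^ 2)) :
    ∀ j k, b j k = 0 := by
  -- summability of the normalised antidiagonal sums
  have hA : Summable (fun N : ℕ => A b N / ((N : ℝ) + 2) ^ 2) := by
    have h1 := (Finset.HasAntidiagonal.sigmaAntidiagonalEquivProd (A := ℕ)).summable_iff.2 hs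
    have h2 := h1.sigma
    refine h2.congr fun N => ?_
    rw [tsum_fintype]
    unfold A
    rw [Finset.sum_div, ← Finset.sum_coe_sort (Finset.HasAntidiagonal.antidiagonal N)
      (fun p : ℕ × ℕ => ‖b p.1 p.2‖ ^ 2 / ((N : ℝ) + 2) ^ 2)]
    refine Finset.sum_congr rfl fun p _ => ?_
    have hp : (p : ℕ × ℕ).1 + (p : ℕ × ℕ).2 = N := Finset.HasAntidiagonal.mem_antidiagonal.1 p.2
    simp only [Function.comp, Finset.HasAntidiagonal.sigmaAntidiagonalEquivProd_apply]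
    have hp' : (((p : ℕ × ℕ).1 : ℝ) + ((p : ℕ × ℕ).2 : ℝ)) = N := by exact_mod_cast hp
    rw [hp']
  -- the differences vanish
  have hd : ∀ j k, df b j k = 0 := by
    intro j k
    by_contra hne
    have hpos : 0 < A (df b) (j + k) := by
      unfold A
      refine Finset.sum_pos' (fun _ _ => by positivity) ⟨(j, k), ?_, ?_⟩
      · simp
      · have : 0 < ‖df b j k‖ := norm_pos_iff.2 hne
        positivity
    exact nonsum (κ := A (df b) (j + k) / 4) (by positivity) (j + k)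
      (fun i => A_growth h (j + k) i) hA
  have h1 : ∀ j k, b (j + 1) k = b j k ∧ b j (k + 1) = b j k := by
    intro j k
    have h2 := hd j k
    have h3 := h j k
    unfold df at h2
    have h4 : b (j + 1) k = b j (k + 1) := sub_eq_zero.1 h2
    rw [h4] at h3
    constructor
    · rw [h4, h3]
      ring
    · rw [h3]
      ring
  have h2 : ∀ j k, b j k = b 0 0 := by
    intro j k
    induction j with
    | zero =>
      induction k with
      | zero => rfl
      | succ k ih => rw [(h1 0 k).2, ih]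
    | succ j ih => rw [(h1 j k).1, ih]
  intro j k
  rw [h2]
  by_contra hne
  have hpos : 0 < ‖b 0 0‖ := norm_pos_iff.2 hne
  refine nonsum (κ := ‖b 0 0‖ ^ 2) (by positivity) 0 (fun i => ?_) hA
  rw [zero_add]
  unfold A
  have : ∀ p ∈ Finset.HasAntidiagonal.antidiagonal i, ‖b p.1 p.2‖ ^ 2 = ‖b 0 0‖ ^ 2 := fun p _ => by rw [h2]
  rw [Finset.sum_congr rfl this, Finset.sum_const, Finset.Nat.card_antidiagonal, nsmul_eq_mul]
  push_cast
  nlinarith [sq_nonneg ‖b 0 0‖]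

/-! ### The Hilbert space -/

/-- the exponent `(j, k)` -/
noncomputable def ix (j k : ℕ) : Fin 2 →₀ ℕ := Finsupp.single 0 j + Finsupp.single 1 k

lemma ix_zero (j k : ℕ) : ix j k 0 = j := by simp [ix]

lemma ix_one (j k : ℕ) : ix j k 1 = k := by simp [ix]

lemma ix_inj : Function.Injective (fun p : ℕ × ℕ => ix p.1 p.2) := by
  rintro ⟨a, b⟩ ⟨c, d⟩ h
  have h0 := congrArg (fun m : Fin 2 →₀ ℕ => m 0) h
  have h1 := congrArg (fun m : Fin 2 →₀ ℕ => m 1) h
  simp only [ix_zero, ix_one] at h0 h1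
  exact Prod.ext h0 h1

lemma ix_self (J : Fin 2 →₀ ℕ) : J = ix (J 0) (J 1) := by
  ext i
  fin_cases i
  · exact (ix_zero _ _).symm
  · exact (ix_one _ _).symm

lemma wt_pos (β : ℝ) (J : Fin 2 →₀ ℕ) : 0 < wt β J := by
  unfold wt
  positivity

/-- the square root of the weight -/
noncomputable def rt (β : ℝ) (J : Fin 2 →₀ ℕ) : ℝ := Real.sqrt (wt β J)

lemma rt_sq (β : ℝ) (J : Fin 2 →₀ ℕ) : rt β J ^ 2 = wt β J := Real.sq_sqrt (wt_pos β J).le

lemma rt_pos (β : ℝ) (J : Fin 2 →₀ ℕ) : 0 < rt β J := Real.sqrt_pos.2 (wt_pos β J)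

/-- the model `ℓ²` -/
noncomputable abbrev H := lp (fun _ : Fin 2 →₀ ℕ => ℂ) 2

lemma memlp_iff (x : (Fin 2 →₀ ℕ) → ℂ) : Memℓp x 2 ↔ Summable (fun J => ‖x J‖ ^ 2) := by
  rw [memℓp_gen_iff (by norm_num)]
  simp

lemma mem_of_MemD {β : ℝ} {a : MvPowerSeries (Fin 2) ℂ} (ha : MemD β a) :
    Memℓp (fun J : Fin 2 →₀ ℕ => (rt β J : ℂ) * MvPowerSeries.coeff J a) 2 := by
  rw [memlp_iff]
  refine Summable.congr ha fun J => ?_
  rw [norm_mul, mul_pow, Complex.norm_real, Real.norm_of_nonneg (rt_pos β J).le, rt_sq]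
  ring

lemma MemD_poly (β : ℝ) (q : MvPolynomial (Fin 2) ℂ) : MemD β (q : MvPowerSeries (Fin 2) ℂ) := by
  refine summable_of_ne_finset_zero (s := q.support) fun J hJ => ?_
  rw [MvPolynomial.notMem_support_iff] at hJ
  rw [MvPolynomial.coeff_coe, hJ]
  simp

/-- polynomials in the model -/
noncomputable def V (β : ℝ) : MvPolynomial (Fin 2) ℂ →ₗ[ℂ] H where
  toFun q := ⟨fun J => (rt β J : ℂ) * q.coeff J, by
    have h1 := mem_of_MemD (MemD_poly β q)
    have h2 : Memℓp (fun J : Fin 2 →₀ ℕ => (rt β J : ℂ) * q.coeff J) 2 := by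
      simpa only [MvPolynomial.coeff_coe] using h1
    exact h2⟩
  map_add' p q := by
    apply lp.ext
    funext J
    simp [mul_add]
  map_smul' c q := by
    apply lp.ext
    funext J
    simp
    ring

/-- the polynomial `1 - (z₁ + z₂)/2` -/
noncomputable def fpoly : MvPolynomial (Fin 2) ℂ :=
  1 - MvPolynomial.C (1 / 2) * (MvPolynomial.X 0 + MvPolynomial.X 1)

/-- multiples of `f` in the model -/
noncomputable def T (β : ℝ) : MvPolynomial (Fin 2) ℂ →ₗ[ℂ] H :=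
  (V β).comp (LinearMap.mulRight ℂ fpoly)

lemma T_apply (β : ℝ) (p : MvPolynomial (Fin 2) ℂ) : T β p = V β (p * fpoly) := rfl

lemma V_monomial (β : ℝ) (J : Fin 2 →₀ ℕ) (c : ℂ) (h : H) :
    inner ℂ (V β (MvPolynomial.monomial J c)) h = (starRingEnd ℂ) c * (rt β J * h J) := by
  classical
  have : V β (MvPolynomial.monomial J c) = lp.single 2 J ((rt β J : ℂ) * c) := by
    apply lp.ext
    funext K
    simp only [V, LinearMap.coe_mk, AddHom.coe_mk, MvPolynomial.coeff_monomial]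
    by_cases hK : J = K
    · subst hK
      simp
    · rw [if_neg hK]
      simp [lp.single_apply, Ne.symm hK]
  rw [this, lp.inner_single_left]
  simp
  ring

lemma ix_add0 (j k : ℕ) : ix j k + Finsupp.single 0 1 = ix (j + 1) k := by
  unfold ix
  rw [Finsupp.single_add]
  abel

lemma ix_add1 (j k : ℕ) : ix j k + Finsupp.single 1 1 = ix j (k + 1) := by
  unfold ix
  rw [Finsupp.single_add]
  abel

lemma mono_mul (j k : ℕ) : MvPolynomial.monomial (ix j k) (1 : ℂ) * fpoly =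
    MvPolynomial.monomial (ix j k) 1 - (MvPolynomial.monomial (ix (j + 1) k) (1 / 2) +
      MvPolynomial.monomial (ix j (k + 1)) (1 / 2)) := by
  have h0 : MvPolynomial.monomial (ix j k) (1 : ℂ) * (MvPolynomial.C (1 / 2) * MvPolynomial.X 0) =
      MvPolynomial.monomial (ix (j + 1) k) (1 / 2) := by
    rw [MvPolynomial.X, MvPolynomial.C_mul_monomial, MvPolynomial.monomial_mul, ix_add0, mul_one,
      one_mul]
  have h1 : MvPolynomial.monomial (ix j k) (1 : ℂ) * (MvPolynomial.C (1 / 2) * MvPolynomial.X 1) =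
      MvPolynomial.monomial (ix j (k + 1)) (1 / 2) := by
    rw [MvPolynomial.X, MvPolynomial.C_mul_monomial, MvPolynomial.monomial_mul, ix_add1, mul_one,
      one_mul]
  rw [← h0, ← h1, fpoly]
  ring

lemma dense_range {β : ℝ} (hβ : β ≤ 2) : (LinearMap.range (T β)).topologicalClosure = ⊤ := by
  rw [Submodule.topologicalClosure_eq_top_iff, Submodule.eq_bot_iff]
  intro h hh
  rw [Submodule.mem_orthogonal] at hh
  set b : ℕ → ℕ → ℂ := fun j k => (rt β (ix j k) : ℂ) * h (ix j k) with hb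
  have hrec : ∀ j k, b j k = (b (j + 1) k + b j (k + 1)) / 2 := by
    intro j k
    have h1 := hh (T β (MvPolynomial.monomial (ix j k) 1)) (LinearMap.mem_range_self _ _)
    rw [T_apply, mono_mul, map_sub, map_add, inner_sub_left, inner_add_left, V_monomial,
      V_monomial, V_monomial] at h1
    have hc2 : (starRingEnd ℂ) (2 : ℂ) = 2 := map_ofNat _ 2
    rw [hb]
    simp [hc2] at h1 ⊢
    linear_combination h1
  have hs : Summable (fun p : ℕ × ℕ => ‖b p.1 p.2‖ ^ 2 / ((p.1 + p.2 : ℝ) + 2) ^ 2) := by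
    have h1 : Summable (fun J => ‖h J‖ ^ 2) := (memlp_iff _).1 h.2
    have h2 := h1.comp_injective ix_inj
    refine Summable.of_nonneg_of_le (fun p => by positivity) (fun p => ?_) h2
    rw [hb]
    simp only [Function.comp]
    rw [norm_mul, mul_pow, Complex.norm_real, Real.norm_of_nonneg (rt_pos β _).le, rt_sq]
    have h3 : wt β (ix p.1 p.2) ≤ ((p.1 + p.2 : ℝ) + 2) ^ 2 := by
      unfold wt
      rw [ix_zero, ix_one]
      push_cast
      have h4 : (1 : ℝ) ≤ (p.1 : ℝ) + p.2 + 2 := by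
        have h5 : (0 : ℝ) ≤ p.1 := Nat.cast_nonneg _
        have h6 : (0 : ℝ) ≤ p.2 := Nat.cast_nonneg _
        linarith
      have := Real.rpow_le_rpow_of_exponent_le h4 hβ
      rwa [Real.rpow_two] at this
    rw [div_le_iff₀ (by positivity)]
    nlinarith [sq_nonneg ‖h (ix p.1 p.2)‖]
  have h0 := core hrec hs
  apply lp.ext
  funext J
  have h1 := h0 (J 0) (J 1)
  rw [hb] at h1
  simp only at h1
  rw [← ix_self] at h1
  rcases mul_eq_zero.1 h1 with h2 | h2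
  · exfalso
    have : rt β J = 0 := by exact_mod_cast h2
    exact (rt_pos β J).ne' this
  · simpa using h2

/-- **Answer to Q1 of MP_f86430_an.** For every real `β ≤ 2` (in particular for
`3/2 < β ≤ 2`) the function `1 - (z₁ + z₂)/2` is cyclic in `𝒟_β(𝔻²)`. -/
theorem result (β : ℝ) (hβ : β ≤ 2) : IsCyclic β
    (1 - MvPowerSeries.C (1 / 2 : ℂ) * (MvPowerSeries.X 0 + MvPowerSeries.X 1)) := by
  have hf : (1 - MvPowerSeries.C (1 / 2 : ℂ) * (MvPowerSeries.X 0 + MvPowerSeries.X 1) :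
      MvPowerSeries (Fin 2) ℂ) = (fpoly : MvPowerSeries (Fin 2) ℂ) := by
    have h : (fpoly : MvPowerSeries (Fin 2) ℂ) =
      MvPolynomial.coeToMvPowerSeries.ringHom fpoly := rfl
    rw [h, fpoly, map_sub, map_one, map_mul, map_add]
    simp only [MvPolynomial.coeToMvPowerSeries.ringHom_apply, MvPolynomial.coe_C,
      MvPolynomial.coe_X]
  rw [hf]
  refine ⟨MemD_poly β fpoly, ?_⟩
  intro g hg ε hε
  set G : H := ⟨_, mem_of_MemD hg⟩ with hG
  have hmem : G ∈ (LinearMap.range (T β)).topologicalClosure := by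
    rw [dense_range hβ]
    trivial
  rw [← SetLike.mem_coe, Submodule.topologicalClosure_coe] at hmem
  obtain ⟨_, ⟨p, rfl⟩, hp⟩ := Metric.mem_closure_iff.1 hmem (Real.sqrt ε) (Real.sqrt_pos.2 hε)
  have hpoly : (p : MvPowerSeries (Fin 2) ℂ) * (fpoly : MvPowerSeries (Fin 2) ℂ) =
      ((p * fpoly : MvPolynomial (Fin 2) ℂ) : MvPowerSeries (Fin 2) ℂ) := by
    simp
  have hcoord : ∀ J, ‖MvPowerSeries.coeff J ((p : MvPowerSeries (Fin 2) ℂ) *
      (fpoly : MvPowerSeries (Fin 2) ℂ) - g)‖ ^ 2 * wt β J = ‖(T β p - G) J‖ ^ 2 := by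
    intro J
    have : (T β p - G) J = (rt β J : ℂ) * MvPowerSeries.coeff J
        ((p : MvPowerSeries (Fin 2) ℂ) * (fpoly : MvPowerSeries (Fin 2) ℂ) - g) := by
      rw [hpoly, T_apply, hG, map_sub, MvPolynomial.coeff_coe, mul_sub]
      rfl
    rw [this, norm_mul, mul_pow, Complex.norm_real, Real.norm_of_nonneg (rt_pos β J).le, rt_sq]
    ring
  have hsum : Summable (fun J => ‖(T β p - G) J‖ ^ 2) := (memlp_iff _).1 (T β p - G).2
  refine ⟨p, hsum.congr fun J => (hcoord J).symm, ?_⟩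
  unfold normSq
  simp only [hcoord]
  have h1 : ‖T β p - G‖ ^ 2 = ∑' J, ‖(T β p - G) J‖ ^ 2 := by
    have := lp.norm_rpow_eq_tsum (p := 2) (by norm_num) (T β p - G)
    simpa using this
  rw [← h1]
  rw [dist_comm, dist_eq_norm] at hp
  have h2 := pow_lt_pow_left₀ hp (norm_nonneg _) (n := 2) (by norm_num)
  rwa [Real.sq_sqrt hε.le] at h2

end Pool.Agent.Results.MP_f86430_an.Cyclic
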